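import Pool.Agent.Run7.h204.BdmB

open Run7.h204.Bdm

namespace Pool.Agent.Results.MP_c77635_an.NotSqueezed

/-- Q1 answered in the negative, over the reals and over the complex numbers: there is a
bidemocratic basis `x` of `ℓ₂` (with coordinate functionals `xs`) such that `ℓ_{2,q}` does not
embed in `ℓ₂` by means of `x` for any `q > 1`, and `ℓ₂` does not embed in `ℓ_{2,r}` for any
`r < ∞`. -/
theorem result (𝕜 : Type) [RCLike 𝕜] :
    ∃ (x : ℕ → L2 𝕜) (xs : ℕ → (L2 𝕜 →L[𝕜] 𝕜)), IsBasis x xs ∧ Bidemocratic x xs ∧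
      (∀ q : ℝ, 1 < q → ¬ EmbedsLeft q x) ∧ (∀ r : ℝ, 0 < r → ¬ EmbedsRight r xs) :=
  main 𝕜

end Pool.Agent.Results.MP_c77635_an.NotSqueezed
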